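import Pool.Agent.J4H4.DM.Stm
import Pool.Agent.J4H79.DN.D

/-! Project DM, piece D: all roots are reflected, one after the other. -/

set_option autoImplicit false

namespace Pool.Agent.J4H79.DM

open Polynomial Complex
open Pool.Agent.J4H34.DN (fold)
open Pool.Agent.J4H4.DM
open Pool.Agent.J4H79.DN (q q_ne q_roots q_cons q_self star_eq fold_re fold_im dist_sq sum_others)

/-- the sum of the `1 / (z - v)` -/
noncomputable def LD (z : ℂ) (m : Multiset ℂ) : ℂ := (m.map (fun v => 1 / (z - v))).sum

theorem LD_add (z : ℂ) (m m' : Multiset ℂ) : LD z (m + m') = LD z m + LD z m' := by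
  unfold LD
  rw [Multiset.map_add, Multiset.sum_add]

theorem LD_cons (z w : ℂ) (m : Multiset ℂ) : LD z (w ::ₘ m) = 1 / (z - w) + LD z m := by
  unfold LD
  rw [Multiset.map_cons, Multiset.sum_cons]

theorem eval_ne {a z : ℂ} (ha : a ≠ 0) {m : Multiset ℂ} (hm : ∀ v ∈ m, v ≠ z) :
    (q a m).eval z ≠ 0 := by
  intro h0
  have h1 : z ∈ (q a m).roots := (mem_roots (q_ne ha m)).2 h0
  rw [q_roots ha] at h1
  exact hm z h1 rfl

theorem der_norm {a z : ℂ} (ha : a ≠ 0) {m : Multiset ℂ} (hm : ∀ v ∈ m, v ≠ z) :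
    ‖(derivative (q a m)).eval z‖ = ‖LD z m‖ * ‖(q a m).eval z‖ := by
  have hne := eval_ne ha hm
  have h := (IsAlgClosed.splits (q a m)).eval_derivative_div_eval_of_ne_zero hne
  rw [q_roots ha] at h
  unfold LD
  rw [← h, norm_div, div_mul_cancel₀ _ (norm_ne_zero_iff.mpr hne)]

/-- the sum of the `1 / |z - v|²` against the imaginary part -/
theorem sq_sum {z : ℂ} {R : ℝ} (hR : 0 < R) (m : Multiset ℂ) (hm : ∀ v ∈ m, v.im + R ≤ z.im) :
    R * (m.map (fun v => 1 / ‖z - v‖ ^ 2)).sum ≤ -(LD z m).im := by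
  induction m using Multiset.induction_on with
  | empty => simp [LD]
  | cons v m ih =>
    have ih' := ih (fun w hw => hm w (Multiset.mem_cons_of_mem hw))
    have hv := hm v (Multiset.mem_cons_self v m)
    rw [Multiset.map_cons, Multiset.sum_cons, LD_cons, Complex.add_im, mul_add]
    have e : (1 / (z - v)).im = -((z.im - v.im) / ‖z - v‖ ^ 2) := by
      rw [one_div, Complex.inv_im, Complex.normSq_eq_norm_sq, Complex.sub_im]
      ring
    rw [e]
    have hpos : 0 < ‖z - v‖ ^ 2 := by
      have : z - v ≠ 0 := by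
        intro h
        have : (z - v).im = 0 := by rw [h]; rfl
        rw [Complex.sub_im] at this
        linarith
      positivity
    have h1 : R * (1 / ‖z - v‖ ^ 2) ≤ (z.im - v.im) / ‖z - v‖ ^ 2 := by
      rw [mul_one_div]
      exact div_le_div_of_nonneg_right (by linarith) hpos.le
    linarith

/-- one term -/
theorem term_le {x₀ R y : ℝ} (hR : 1 ≤ R) (hy : -1 ≤ y) {v : ℂ} (hv : |v.im| ≤ 1) :
    ‖1 / ((⟨x₀, R + 1⟩ : ℂ) - fold y v) - 1 / ((⟨x₀, R + 1⟩ : ℂ) - v)‖ ≤
      4 * (1 / ‖(⟨x₀, R + 1⟩ : ℂ) - v‖ ^ 2) := by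
  have hv' := abs_le.mp hv
  by_cases hc : y < v.im
  · have hf : fold y v = ⟨v.re, 2 * y - v.im⟩ := by
      unfold fold Pool.Agent.J4H34.DN.refl
      rw [if_pos hc]
    have hne : ∀ w : ℂ, w.im ≤ 1 → (⟨x₀, R + 1⟩ : ℂ) - w ≠ 0 := by
      intro w hw h
      have : ((⟨x₀, R + 1⟩ : ℂ) - w).im = 0 := by rw [h]; rfl
      rw [Complex.sub_im] at this
      simp only at this
      linarith
    have h1 := hne v hv'.2
    have h2 := hne (fold y v) (by rw [hf]; simp only; linarith)
    have e : 1 / ((⟨x₀, R + 1⟩ : ℂ) - fold y v) - 1 / ((⟨x₀, R + 1⟩ : ℂ) - v) =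
        (fold y v - v) / (((⟨x₀, R + 1⟩ : ℂ) - fold y v) * ((⟨x₀, R + 1⟩ : ℂ) - v)) := by
      field_simp
      ring
    rw [e, norm_div, norm_mul]
    have h3 : ‖fold y v - v‖ ≤ 4 := by
      have : fold y v - v = ⟨0, 2 * y - 2 * v.im⟩ := by
        rw [hf]
        apply Complex.ext
        · simp
        · simp only [Complex.sub_im]; ring
      rw [this]
      have h4 := Complex.norm_le_abs_re_add_abs_im (⟨0, 2 * y - 2 * v.im⟩ : ℂ)
      simp only [abs_zero, zero_add] at h4
      refine h4.trans ?_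
      rw [abs_le]
      constructor <;> linarith
    have h4 : ‖(⟨x₀, R + 1⟩ : ℂ) - v‖ ≤ ‖(⟨x₀, R + 1⟩ : ℂ) - fold y v‖ := by
      refine le_of_sq_le_sq ?_ (norm_nonneg _)
      rw [dist_sq, dist_sq, hf]
      simp only
      have : (R + 1 - v.im) ^ 2 ≤ (R + 1 - (2 * y - v.im)) ^ 2 :=
        pow_le_pow_left₀ (by linarith) (by linarith) 2
      linarith
    have h5 : 0 < ‖(⟨x₀, R + 1⟩ : ℂ) - v‖ := norm_pos_iff.mpr h1
    rw [mul_one_div, sq]
    refine div_le_div₀ (by norm_num) h3 (by positivity) ?_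
    exact mul_le_mul_of_nonneg_right h4 h5.le
  · have hf : fold y v = v := by unfold fold; rw [if_neg hc]
    rw [hf, sub_self, norm_zero]
    positivity

/-- the logarithmic derivatives of the intermediate polynomials -/
theorem LD_le {x₀ R y M : ℝ} (hR : 1 ≤ R) (hy : -1 ≤ y) (hM : 1 ≤ M) {s t u : Multiset ℂ} {w : ℂ}
    (hs : ∀ v ∈ s, |v.im| ≤ 1) (htu : t + (w ::ₘ u) = s) (h : ‖LD ⟨x₀, R + 1⟩ s‖ ≤ M) :
    ‖LD ⟨x₀, R + 1⟩ (t.map (fold y) + u)‖ ≤ 6 * M := by
  have hR0 : 0 < R := by linarith
  set z : ℂ := ⟨x₀, R + 1⟩ with hz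
  have hsm : ∀ v ∈ s, v.im + R ≤ z.im := by
    intro v hv
    have := (abs_le.mp (hs v hv)).2
    rw [hz]; simp only; linarith
  have h1 := sq_sum hR0 s hsm
  have h2 : -(LD z s).im ≤ M := by
    have := Complex.abs_im_le_norm (LD z s)
    have h3 := neg_abs_le (LD z s).im
    linarith
  set Q2 := (s.map (fun v => 1 / ‖z - v‖ ^ 2)).sum with hQ2
  have hQ2n : 0 ≤ Q2 := by
    apply Multiset.sum_nonneg
    intro x hx
    obtain ⟨v, _, rfl⟩ := Multiset.mem_map.mp hx
    positivity
  have hQM : Q2 ≤ M := by nlinarith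
  -- the sum over t
  have hts : ∀ v ∈ t, |v.im| ≤ 1 := fun v hv => hs v (by
    rw [← htu, Multiset.mem_add]; exact Or.inl hv)
  have hw : |w.im| ≤ 1 := hs w (by rw [← htu]; simp)
  have hT : (t.map (fun v => 1 / ‖z - v‖ ^ 2)).sum ≤ Q2 := by
    rw [hQ2, ← htu, Multiset.map_add, Multiset.sum_add]
    have : 0 ≤ ((w ::ₘ u).map (fun v => 1 / ‖z - v‖ ^ 2)).sum := by
      apply Multiset.sum_nonneg
      intro x hx
      obtain ⟨v, _, rfl⟩ := Multiset.mem_map.mp hx
      positivity
    linarith
  have hdiff : ∀ t : Multiset ℂ, (∀ v ∈ t, |v.im| ≤ 1) →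
      ‖LD z (t.map (fold y)) - LD z t‖ ≤ 4 * (t.map (fun v => 1 / ‖z - v‖ ^ 2)).sum := by
    intro t
    induction t using Multiset.induction_on with
    | empty => intro _; simp [LD]
    | cons v t ih =>
      intro ht
      have ih' := ih (fun w hw => ht w (Multiset.mem_cons_of_mem hw))
      have hv := term_le (x₀ := x₀) hR hy (ht v (Multiset.mem_cons_self v t))
      rw [← hz] at hv
      rw [Multiset.map_cons, LD_cons, LD_cons, Multiset.map_cons, Multiset.sum_cons, mul_add]
      have e : 1 / (z - fold y v) + LD z (t.map (fold y)) - (1 / (z - v) + LD z t) =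
          (1 / (z - fold y v) - 1 / (z - v)) + (LD z (t.map (fold y)) - LD z t) := by ring
      rw [e]
      exact (norm_add_le _ _).trans (add_le_add hv ih')
  have h3 := hdiff t hts
  have h4 : ‖1 / (z - w)‖ ≤ 1 := by
    rw [norm_div, norm_one]
    have h5 : R ≤ ‖z - w‖ := by
      have h6 := Complex.abs_im_le_norm (z - w)
      have h7 := le_abs_self (z - w).im
      have h8 : (z - w).im = R + 1 - w.im := by rw [Complex.sub_im, hz]
      have h9 := (abs_le.mp hw).2
      linarith
    rw [div_le_one (by linarith)]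
    linarith
  have e : LD z (t.map (fold y) + u) =
      LD z s - 1 / (z - w) + (LD z (t.map (fold y)) - LD z t) := by
    rw [← htu, LD_add, LD_add, LD_cons]
    ring
  rw [e]
  have h5 := norm_add_le (LD z s - 1 / (z - w)) (LD z (t.map (fold y)) - LD z t)
  have h6 := norm_sub_le (LD z s) (1 / (z - w))
  linarith

/-- D. -/
theorem t_D : S_C → S_D := by
  intro hC p y b R Λ M x₀ m n hp hroots hy hy1 hR hΛ hM hb hsum hder hn hbm hbM
  have hR0 : 0 < R := by linarith
  set a := p.leadingCoeff with ha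
  have ha0 : a ≠ 0 := leadingCoeff_ne_zero.mpr hp
  set z₀ : ℂ := ⟨x₀, R + 1⟩ with hz₀
  set s := p.roots with hs
  have hps : q a s = p := q_self
  have hz : z₀.im = R + 1 := rfl
  have hnz : ∀ v : ℂ, v.im ≤ 1 → v ≠ z₀ := by
    intro v hv h
    rw [h, hz] at hv
    linarith
  have hLD : ‖LD z₀ s‖ ≤ M := by
    have hns : ∀ v ∈ s, v ≠ z₀ := fun v hv => hnz v (abs_le.mp (hroots v hv)).2
    have h1 := der_norm ha0 hns
    have h2 := eval_ne ha0 hns
    rw [hps] at h1 h2
    rw [h1] at hder
    exact le_of_mul_le_mul_right hder (norm_pos_iff.mpr h2)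
  -- the application of C
  have app : ∀ (t u : Multiset ℂ) (w : ℂ) (y' : ℝ), t + (w ::ₘ u) = s → y' < w.im →
      (op b m n (q a (w ::ₘ (t.map (fold y) + u)))).eval z₀ ≠ 0 ∧
      ‖(op b m n (q a (Pool.Agent.J4H34.DN.refl y' w ::ₘ (t.map (fold y) + u)))).eval z₀‖ ≤
        Real.exp (5 * ((w.im - y') * (z₀.im - y') / ‖z₀ - w‖ ^ 2)) *
          ‖(op b m n (q a (w ::ₘ (t.map (fold y) + u)))).eval z₀‖ := by
    intro t u w y' htu hyw
    have hw : |w.im| ≤ 1 := hroots w (by rw [← htu]; simp)
    set m' := t.map (fold y) + u with hm'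
    have hsub : ∀ v ∈ m', -3 ≤ v.im ∧ v.im ≤ 1 := by
      intro v hv
      rw [hm', Multiset.mem_add] at hv
      rcases hv with hv | hv
      · obtain ⟨v', hv', rfl⟩ := Multiset.mem_map.mp hv
        exact fold_im hy hy1 (hroots v' (by
          rw [← htu, Multiset.mem_add]; exact Or.inl hv'))
      · have := abs_le.mp (hroots v (by
          rw [← htu, Multiset.mem_add]; exact Or.inr (Multiset.mem_cons_of_mem hv)))
        constructor <;> linarith
    have hsm : Λ + 1 / R ≤ R / ((R + 4) ^ 2 + (x₀ - w.re) ^ 2) +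
        (m'.map (fun w => R / ((R + 4) ^ 2 + (x₀ - w.re) ^ 2))).sum := by
      refine hsum.trans (le_of_eq ?_)
      rw [← htu, hm', Multiset.map_add, Multiset.map_add, Multiset.map_cons, Multiset.sum_add,
        Multiset.sum_add, Multiset.sum_cons, Multiset.map_map]
      have e : t.map ((fun w : ℂ => R / ((R + 4) ^ 2 + (x₀ - w.re) ^ 2)) ∘ fold y) =
          t.map (fun w => R / ((R + 4) ^ 2 + (x₀ - w.re) ^ 2)) := by
        refine Multiset.map_congr rfl fun v _ => ?_
        simp only [Function.comp, fold_re]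
      rw [e]
      ring
    have hbm' : 64 * (b * m) * (6 * M) ^ 2 ≤ Λ * R := by
      refine le_trans ?_ hbm
      have : 0 ≤ b * m * M ^ 2 := by positivity
      nlinarith
    have hbM' : 12 * b * (6 * M) ^ 2 ≤ 1 := by
      refine le_trans ?_ hbM
      have : 0 ≤ b * M ^ 2 := by positivity
      nlinarith
    have h := hC (q a m') z₀ w y' b R Λ (6 * M) m n (q_ne ha0 m') hR hΛ (by linarith) hb
      (by
        intro v hv
        rw [q_roots ha0] at hv
        have := (hsub v hv).2
        rw [hz]; linarith)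
      (by
        rw [q_roots ha0]
        exact sum_others hR hsub hsm)
      (by
        rw [der_norm ha0 (fun v hv => hnz v (hsub v hv).2)]
        exact mul_le_mul_of_nonneg_right (LD_le hR hy hM hroots htu hLD) (norm_nonneg _))
      hn hbm' hbM' hyw (by
        have := (abs_le.mp hw).2
        rw [hz]; linarith)
    rw [← q_cons, ← q_cons] at h
    exact h
  constructor
  · -- nonvanishing
    have hne : s ≠ 0 := by
      rintro h0
      rw [h0, Multiset.map_zero, Multiset.sum_zero] at hsum
      have : 0 < 1 / R := by positivity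
      linarith
    obtain ⟨w, hw⟩ := Multiset.exists_mem_of_ne_zero hne
    obtain ⟨u, hu⟩ := Multiset.exists_cons_of_mem hw
    have h := (app 0 u w (w.im - 1) (by rw [zero_add, hu]) (by linarith)).1
    rw [Multiset.map_zero, zero_add, ← hu, hps] at h
    exact h
  · -- induction
    set F : ℂ → ℝ := fun w => max (w.im - y) 0 * (R + 1 - y) / ‖z₀ - w‖ ^ 2 with hF
    have key : ∀ t u : Multiset ℂ, t + u = s →
        ‖(op b m n (q a (t.map (fold y) + u))).eval z₀‖ ≤
          Real.exp (5 * (t.map F).sum) * ‖(op b m n p).eval z₀‖ := by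
      intro t
      induction t using Multiset.induction_on with
      | empty =>
        intro u hu
        rw [zero_add] at hu
        rw [Multiset.map_zero, zero_add, hu, hps, Multiset.map_zero, Multiset.sum_zero, mul_zero,
          Real.exp_zero, one_mul]
      | cons w t ih =>
        intro u hu
        have hu' : t + (w ::ₘ u) = s := by
          rw [← hu, Multiset.cons_add, Multiset.add_cons]
        have h1 := ih (w ::ₘ u) hu'
        rw [Multiset.add_cons] at h1
        rw [Multiset.map_cons, Multiset.cons_add, Multiset.map_cons, Multiset.sum_cons]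
        by_cases hw : y < w.im
        · have hfold : fold y w = Pool.Agent.J4H34.DN.refl y w := by unfold fold; rw [if_pos hw]
          rw [hfold]
          have h2 := (app t u w y hu' hw).2
          refine h2.trans ?_
          have h3 := mul_le_mul_of_nonneg_left h1
            (Real.exp_pos (5 * ((w.im - y) * (z₀.im - y) / ‖z₀ - w‖ ^ 2))).le
          refine h3.trans (le_of_eq ?_)
          rw [← mul_assoc, ← Real.exp_add, ← mul_add]
          congr 4
          rw [hF]
          simp only
          rw [max_eq_left (by linarith), hz]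
        · have hfold : fold y w = w := by unfold fold; rw [if_neg hw]
          rw [hfold]
          refine h1.trans (le_of_eq ?_)
          have hFw : F w = 0 := by
            rw [hF]
            simp only
            rw [max_eq_right (by linarith), zero_mul, zero_div]
          rw [hFw, zero_add]
    have h := key s 0 (add_zero s)
    rw [add_zero] at h
    rw [star_eq]
    exact h

end Pool.Agent.J4H79.DM
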